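import Pool.Agent.Helper446.Comp

/-!
# A contiguous pc-degree

The pc-degree of every semirecursive set which is not c.e. consists of a single degree for the
reducibility given by the operators which are at the same time s-operators and pc-operators.
-/

set_option autoImplicit false

namespace Pool.Agent.Results.MP_9a6b8c_lc.Contiguous

open Pool.Agent.Helper446
open Pool.Agent.Helper446.RE (cid cconst ccomp cfst csnd cpair cadd csub cmul cmin cmax csucc
  cappend ccons clength cgetElem cencode cdecode csome cisSome cnot cand cor cunpair cnatpair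
  cmapsnd cmapfst ccond)

/-! ### Definitions used in the statement -/

/-- The finite set with canonical index `u`: the positions of the digits `1` in the binary
expansion of `u`. -/
def D (u : ℕ) : Set ℕ := {i | u.testBit i = true}

/-- Enumeration operators: c.e. sets of pairs `(x, u)`. -/
def IsOp (Ψ : Set (ℕ × ℕ)) : Prop := REPred fun p : ℕ × ℕ => p ∈ Ψ

/-- The set `Ψ^B`. -/
def app (Ψ : Set (ℕ × ℕ)) (B : Set ℕ) : Set ℕ := {x | ∃ u, (x, u) ∈ Ψ ∧ D u ⊆ B}

/-- The relation `A ≤_r B` given by a class `r` of operators. -/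
def Red (r : Set (Set (ℕ × ℕ))) (A B : Set ℕ) : Prop := ∃ Ψ ∈ r, A = app Ψ B

/-- The equivalence `A ≡_r B`. -/
def Eqv (r : Set (Set (ℕ × ℕ))) (A B : Set ℕ) : Prop := Red r A B ∧ Red r B A

/-- A class `r` of enumeration operators is (gives) an e-reducibility: the relation `≤_r` is
reflexive and transitive. -/
def IsERed (r : Set (Set (ℕ × ℕ))) : Prop :=
  (∀ Ψ ∈ r, IsOp Ψ) ∧ (∀ A, Red r A A) ∧ ∀ A B C, Red r A B → Red r B C → Red r A C

/-- The e-reducibility given by `r` is proper: all c.e. sets have the `r`-degree of `∅`. -/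
def IsProper (r : Set (Set (ℕ × ℕ))) : Prop :=
  ∀ W : Set ℕ, REPred (fun x => x ∈ W) → Eqv r W ∅

/-- The s-operators. -/
def sOps : Set (Set (ℕ × ℕ)) := {Ψ | IsOp Ψ ∧ ∀ x u, (x, u) ∈ Ψ → (D u).Subsingleton}

/-- The pc-operators. -/
def pcOps : Set (Set (ℕ × ℕ)) :=
  {Ψ | IsOp Ψ ∧ ∀ x u v, (x, u) ∈ Ψ → (x, v) ∈ Ψ → D u = D v}

/-- The `z`-degree of `A` is nonzero and `y`-contiguous. -/
def IsContiguous (y z : Set (Set (ℕ × ℕ))) (A : Set ℕ) : Prop :=
  ¬ Eqv z A ∅ ∧ ∀ B C, Eqv z B A → Eqv z C A → Eqv y B C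

/-- `B` is semirecursive (Jockusch): a computable selector chooses among any two numbers one
which is in `B` if at least one of them is. -/
def Semirecursive (B : Set ℕ) : Prop :=
  ∃ f : ℕ → ℕ → ℕ, Computable₂ f ∧ (∀ a b, f a b = a ∨ f a b = b) ∧
    ∀ a b, a ∈ B ∨ b ∈ B → f a b ∈ B

/-! ### Canonical indices -/

theorem D_injective {u v : ℕ} (h : D u = D v) : u = v := by
  refine Nat.eq_of_testBit_eq fun i => ?_
  have h1 : i ∈ D u ↔ i ∈ D v := by rw [h]
  simp only [D, Set.mem_ofPred_eq] at h1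
  cases hu : u.testBit i <;> cases hv : v.testBit i <;> simp_all

theorem cpow : Computable fun n : ℕ => 2 ^ n := by
  refine (Computable.nat_rec (f := fun n : ℕ => n) (g := fun _ => 1)
    (h := fun (_ : ℕ) (y : ℕ × ℕ) => 2 * y.2) Computable.id (Computable.const 1) ?_).of_eq ?_
  · exact Primrec.nat_mul.to_comp.comp (Computable.const 2) (Computable.snd.comp Computable.snd)
  · intro n
    induction n with
    | zero => rfl
    | succ n ih =>
      show 2 * _ = _
      rw [ih, pow_succ, mul_comm]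

theorem cdivmod {α : Type*} [Primcodable α] {f g : α → ℕ} (hf : Computable f)
    (hg : Computable g) : Computable fun a => f a / 2 ^ g a % 2 := by
  have h1 : Computable fun a => f a / 2 ^ g a :=
    Primrec.nat_div.to_comp.comp hf (cpow.comp hg)
  exact Primrec.nat_mod.to_comp.comp h1 (Computable.const 2)

theorem testBit_iff (u i : ℕ) : u.testBit i = true ↔ u / 2 ^ i % 2 = 1 := by
  rw [Nat.testBit_eq_decide_div_mod_eq]
  simp

/-- The list of the elements of `D u`. -/
def bits (u : ℕ) : List ℕ := (List.range u).filter fun i => decide (u / 2 ^ i % 2 = 1)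

theorem mem_bits {u i : ℕ} : i ∈ bits u ↔ i ∈ D u := by
  simp only [bits, D, List.mem_filter, List.mem_range, decide_eq_true_eq, Set.mem_ofPred_eq,
    testBit_iff]
  constructor
  · exact fun h => h.2
  · intro h
    refine ⟨?_, h⟩
    by_contra hc
    push Not at hc
    have h1 : u < 2 ^ i := lt_of_le_of_lt hc Nat.lt_two_pow_self
    rw [Nat.div_eq_of_lt h1] at h
    simp at h

theorem cbits : Computable bits := by
  have h : Computable fun u : ℕ => (List.range u).foldl
      (fun (s : List ℕ) (i : ℕ) => if u / 2 ^ i % 2 = 1 then s ++ [i] else s) [] := by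
    refine RE.list_foldl (f := fun u => List.range u) (g := fun _ => ([] : List ℕ))
      (h := fun u y => if u / 2 ^ y.2 % 2 = 1 then y.1 ++ [y.2] else y.1) ?_
      (Computable.const _) ?_
    · exact Primrec.list_range.to_comp
    · have h1 : Computable fun x : ℕ × (List ℕ × ℕ) => x.1 / 2 ^ x.2.2 % 2 :=
        cdivmod Computable.fst (by fun_prop)
      exact RE.cite (RE.cp_eq h1 (Computable.const 1)) (by fun_prop) (by fun_prop)
  refine h.of_eq fun u => ?_
  have key : ∀ (l : List ℕ) (s : List ℕ), l.foldl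
      (fun (s : List ℕ) (i : ℕ) => if u / 2 ^ i % 2 = 1 then s ++ [i] else s) s =
      s ++ l.filter fun i => decide (u / 2 ^ i % 2 = 1) := by
    intro l
    induction l with
    | nil => intro s; simp
    | cons a l ih =>
      intro s
      rw [List.foldl_cons, ih]
      by_cases ha : u / 2 ^ a % 2 = 1
      · simp [ha]
      · simp [ha]
  rw [key]
  rfl

/-- every finite list has a canonical index -/
theorem exists_index (l : List ℕ) : ∃ w : ℕ, ∀ i, i ∈ D w ↔ i ∈ l := by
  induction l with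
  | nil => exact ⟨0, fun i => by simp [D]⟩
  | cons a l ih =>
    obtain ⟨w, hw⟩ := ih
    refine ⟨2 ^ a ||| w, fun i => ?_⟩
    have h1 : i ∈ D w ↔ i ∈ l := hw i
    simp only [D, Set.mem_ofPred_eq, Nat.testBit_or, Bool.or_eq_true, List.mem_cons] at h1 ⊢
    rw [h1, Nat.testBit_two_pow]
    simp [eq_comm]

theorem D_zero : D 0 = ∅ := by ext i; simp [D]

theorem D_pow (a : ℕ) : D (2 ^ a) = {a} := by
  ext i
  simp only [D, Set.mem_ofPred_eq, Nat.testBit_two_pow, decide_eq_true_eq, Set.mem_singleton_iff]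
  exact eq_comm

/-! ### Reductions in terms of lists and options -/

theorem pc_iff {A B : Set ℕ} : Red pcOps A B ↔ ∃ W : ℕ → List ℕ → Prop,
    REPred (fun p : ℕ × List ℕ => W p.1 p.2) ∧ (∀ x l l', W x l → W x l' → l = l') ∧
    ∀ x, x ∈ A ↔ ∃ l, W x l ∧ ∀ y ∈ l, y ∈ B := by
  constructor
  · rintro ⟨Ψ, ⟨h1, h2⟩, rfl⟩
    refine ⟨fun x l => ∃ u, (x, u) ∈ Ψ ∧ bits u = l, ?_, ?_, ?_⟩
    · refine RE.ex (p := fun (p : ℕ × List ℕ) (u : ℕ) => (p.1, u) ∈ Ψ ∧ bits u = p.2) ?_
      refine RE.and ?_ (RE.eq (cbits.comp (by fun_prop)) (by fun_prop))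
      exact RE.comp h1 (f := fun p : (ℕ × List ℕ) × ℕ => (p.1.1, p.2)) (by fun_prop)
    · rintro x l l' ⟨u, hu, rfl⟩ ⟨v, hv, rfl⟩
      rw [D_injective (h2 x u v hu hv)]
    · intro x
      constructor
      · rintro ⟨u, hu, hB⟩
        exact ⟨bits u, ⟨u, hu, rfl⟩, fun y hy => hB (mem_bits.1 hy)⟩
      · rintro ⟨_, ⟨u, hu, rfl⟩, hB⟩
        exact ⟨u, hu, fun y hy => hB y (mem_bits.2 hy)⟩
  · rintro ⟨W, h1, h2, h3⟩
    refine ⟨{p | ∃ l, W p.1 l ∧ (∀ i ∈ bits p.2, i ∈ l) ∧ ∀ i ∈ l, i ∈ bits p.2}, ⟨?_, ?_⟩, ?_⟩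
    · refine RE.ex (p := fun (p : ℕ × ℕ) (l : List ℕ) => W p.1 l ∧ (∀ i ∈ bits p.2, i ∈ l) ∧
        ∀ i ∈ l, i ∈ bits p.2) ?_
      refine RE.and ?_ (RE.and ?_ ?_)
      · exact RE.comp h1 (f := fun p : (ℕ × ℕ) × List ℕ => (p.1.1, p.2)) (by fun_prop)
      · refine RE.all_mem (p := fun (p : (ℕ × ℕ) × List ℕ) (i : ℕ) => i ∈ p.2)
          (l := fun p => bits p.1.2) ?_ (cbits.comp (by fun_prop))
        exact RE.mem_list (by fun_prop) (by fun_prop)
      · refine RE.all_mem (p := fun (p : (ℕ × ℕ) × List ℕ) (i : ℕ) => i ∈ bits p.1.2)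
          (l := fun p => p.2) ?_ (by fun_prop)
        exact RE.mem_list (by fun_prop) (cbits.comp (by fun_prop))
    · rintro x u v ⟨l, hl, hl1, hl2⟩ ⟨l', hl', hl1', hl2'⟩
      have := h2 x l l' hl hl'
      subst this
      ext i
      constructor
      · intro hi; exact mem_bits.1 (hl2' i (hl1 i (mem_bits.2 hi)))
      · intro hi; exact mem_bits.1 (hl2 i (hl1' i (mem_bits.2 hi)))
    · ext x
      rw [h3]
      constructor
      · rintro ⟨l, hl, hB⟩
        obtain ⟨w, hw⟩ := exists_index l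
        refine ⟨w, ⟨l, hl, fun i hi => (hw i).1 (mem_bits.1 hi),
          fun i hi => mem_bits.2 ((hw i).2 hi)⟩, fun i hi => hB i ((hw i).1 hi)⟩
      · rintro ⟨w, ⟨l, hl, hl1, hl2⟩, hB⟩
        exact ⟨l, hl, fun y hy => hB (mem_bits.1 (hl2 y hy))⟩

theorem spc_iff {A B : Set ℕ} : Red (sOps ∩ pcOps) A B ↔ ∃ W : ℕ → Option ℕ → Prop,
    REPred (fun p : ℕ × Option ℕ => W p.1 p.2) ∧ (∀ x o o', W x o → W x o' → o = o') ∧
    ∀ x, x ∈ A ↔ ∃ o, W x o ∧ ∀ y ∈ o, y ∈ B := by
  constructor
  · rintro ⟨Ψ, ⟨⟨-, h0⟩, h1, h2⟩, rfl⟩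
    refine ⟨fun x o => ∃ u, (x, u) ∈ Ψ ∧ (bits u)[0]? = o, ?_, ?_, ?_⟩
    · refine RE.ex (p := fun (p : ℕ × Option ℕ) (u : ℕ) => (p.1, u) ∈ Ψ ∧ (bits u)[0]? = p.2) ?_
      refine RE.and ?_ (RE.eq ?_ (by fun_prop))
      · exact RE.comp h1 (f := fun p : (ℕ × Option ℕ) × ℕ => (p.1.1, p.2)) (by fun_prop)
      · exact (Computable.list_getElem?.comp (cbits.comp Computable.snd) (Computable.const 0))
    · rintro x l l' ⟨u, hu, rfl⟩ ⟨v, hv, rfl⟩
      rw [D_injective (h2 x u v hu hv)]
    · intro x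
      have key : ∀ u, (x, u) ∈ Ψ → (D u ⊆ B ↔ ∀ y ∈ (bits u)[0]?, y ∈ B) := by
        intro u hu
        have hs := h0 x u hu
        constructor
        · intro hB y hy
          exact hB (mem_bits.1 (List.mem_of_getElem? hy))
        · intro hB y hy
          have hy1 := mem_bits.2 hy
          rcases hb : bits u with _ | ⟨a, t⟩
          · rw [hb] at hy1; simp at hy1
          · rw [hb] at hB
            have ha : a ∈ D u := mem_bits.1 (by rw [hb]; simp)
            rw [hs hy ha]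
            exact hB a (by simp)
      constructor
      · rintro ⟨u, hu, hB⟩
        exact ⟨_, ⟨u, hu, rfl⟩, (key u hu).1 hB⟩
      · rintro ⟨_, ⟨u, hu, rfl⟩, hB⟩
        exact ⟨u, hu, (key u hu).2 hB⟩
  · rintro ⟨W, h1, h2, h3⟩
    have hop : IsOp {p : ℕ × ℕ | (W p.1 none ∧ p.2 = 0) ∨ ∃ i, W p.1 (some i) ∧ p.2 = 2 ^ i} := by
      refine RE.or (RE.and ?_ (RE.eq (by fun_prop) (by fun_prop))) ?_
      · exact RE.comp h1 (f := fun p : ℕ × ℕ => (p.1, (none : Option ℕ))) (by fun_prop)
      · refine RE.ex (p := fun (p : ℕ × ℕ) (i : ℕ) => W p.1 (some i) ∧ p.2 = 2 ^ i) ?_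
        refine RE.and ?_ (RE.eq (by fun_prop) (cpow.comp (by fun_prop)))
        exact RE.comp h1 (f := fun p : (ℕ × ℕ) × ℕ => (p.1.1, some p.2)) (by fun_prop)
    refine ⟨{p : ℕ × ℕ | (W p.1 none ∧ p.2 = 0) ∨ ∃ i, W p.1 (some i) ∧ p.2 = 2 ^ i},
      ⟨⟨hop, ?_⟩, hop, ?_⟩, ?_⟩
    · rintro x u (⟨-, h⟩ | ⟨i, -, h⟩)
      · simp only at h
        rw [h, D_zero]
        exact Set.subsingleton_empty
      · simp only at h
        rw [h, D_pow]
        exact Set.subsingleton_singleton
    · rintro x u v (⟨h, hu⟩ | ⟨i, h, hu⟩) (⟨h', hv⟩ | ⟨i', h', hv⟩)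
      · simp only at hu hv; rw [hu, hv]
      · cases h2 x _ _ h h'
      · cases h2 x _ _ h h'
      · simp only at hu hv
        have := h2 x _ _ h h'
        cases this
        rw [hu, hv]
    · ext x
      rw [h3]
      constructor
      · rintro ⟨o, ho, hB⟩
        rcases o with _ | i
        · exact ⟨0, Or.inl ⟨ho, rfl⟩, by rw [D_zero]; exact Set.empty_subset _⟩
        · refine ⟨2 ^ i, Or.inr ⟨i, ho, rfl⟩, ?_⟩
          rw [D_pow]
          exact Set.singleton_subset_iff.2 (hB i rfl)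
      · rintro ⟨u, ⟨h, hu⟩ | ⟨i, h, hu⟩, hB⟩
        · exact ⟨none, h, by simp⟩
        · simp only at hu h
          rw [hu, D_pow] at hB
          refine ⟨some i, h, fun y hy => ?_⟩
          cases hy
          exact hB rfl

/-! ### The two reducibilities -/

theorem spc_sub {A B : Set ℕ} (h : Red (sOps ∩ pcOps) A B) : Red pcOps A B := by
  obtain ⟨Ψ, hΨ, h⟩ := h
  exact ⟨Ψ, hΨ.2, h⟩

theorem spc_refl (A : Set ℕ) : Red (sOps ∩ pcOps) A A := by
  rw [spc_iff]
  refine ⟨fun x o => o = some x, RE.eq (by fun_prop) (by fun_prop), ?_, ?_⟩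
  · rintro x o o' rfl rfl; rfl
  · intro x; simp

theorem spc_trans (A B C : Set ℕ) (h1 : Red (sOps ∩ pcOps) A B) (h2 : Red (sOps ∩ pcOps) B C) :
    Red (sOps ∩ pcOps) A C := by
  rw [spc_iff] at *
  obtain ⟨W, hW1, hW2, hW3⟩ := h1
  obtain ⟨V, hV1, hV2, hV3⟩ := h2
  refine ⟨fun x o => (W x none ∧ o = none) ∨ ∃ i, W x (some i) ∧ V i o, ?_, ?_, ?_⟩
  · refine RE.or (RE.and ?_ (RE.eq (by fun_prop) (by fun_prop))) ?_
    · exact RE.comp hW1 (f := fun p : ℕ × Option ℕ => (p.1, (none : Option ℕ))) (by fun_prop)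
    · refine RE.ex (p := fun (p : ℕ × Option ℕ) (i : ℕ) => W p.1 (some i) ∧ V i p.2) ?_
      refine RE.and ?_ ?_
      · exact RE.comp hW1 (f := fun p : (ℕ × Option ℕ) × ℕ => (p.1.1, some p.2)) (by fun_prop)
      · exact RE.comp hV1 (f := fun p : (ℕ × Option ℕ) × ℕ => (p.2, p.1.2)) (by fun_prop)
  · rintro x o o' (⟨h, rfl⟩ | ⟨i, h, hi⟩) (⟨h', rfl⟩ | ⟨i', h', hi'⟩)
    · rfl
    · cases hW2 x _ _ h h'
    · cases hW2 x _ _ h h'
    · cases hW2 x _ _ h h'
      exact hV2 i _ _ hi hi'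
  · intro x
    rw [hW3]
    constructor
    · rintro ⟨o, ho, hB⟩
      rcases o with _ | i
      · exact ⟨none, Or.inl ⟨ho, rfl⟩, by simp⟩
      · obtain ⟨o, ho', hC⟩ := (hV3 i).1 (hB i rfl)
        exact ⟨o, Or.inr ⟨i, ho, ho'⟩, hC⟩
    · rintro ⟨o, ⟨h, rfl⟩ | ⟨i, h, hi⟩, hC⟩
      · exact ⟨none, h, by simp⟩
      · refine ⟨some i, h, fun y hy => ?_⟩
        cases hy
        exact (hV3 i).2 ⟨o, hi, hC⟩

theorem pc_trans (A B C : Set ℕ) (h1 : Red pcOps A B) (h2 : Red pcOps B C) :
    Red pcOps A C := by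
  rw [pc_iff] at *
  obtain ⟨W, hW1, hW2, hW3⟩ := h1
  obtain ⟨V, hV1, hV2, hV3⟩ := h2
  have huniq : ∀ L L' : List (ℕ × List ℕ), L.map Prod.fst = L'.map Prod.fst →
      (∀ p ∈ L, V p.1 p.2) → (∀ p ∈ L', V p.1 p.2) → L = L' := by
    intro L
    induction L with
    | nil =>
      intro L' h _ _
      rcases L' with _ | ⟨b, L'⟩
      · rfl
      · simp at h
    | cons a L ih =>
      intro L' h h1 h2
      rcases L' with _ | ⟨b, L'⟩
      · simp at h
      · simp only [List.map_cons, List.cons.injEq] at h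
        have h3 := h1 a (by simp)
        have h4 := h2 b (by simp)
        rw [← h.1] at h4
        have h5 : a.2 = b.2 := hV2 _ _ _ h3 h4
        have h6 : a = b := Prod.ext h.1 h5
        rw [h6, ih L' h.2 (fun p hp => h1 p (by simp [hp])) (fun p hp => h2 p (by simp [hp]))]
  have hjoin : ∀ (L : List (ℕ × List ℕ)) (y : ℕ),
      y ∈ L.foldl (fun s p => s ++ p.2) [] ↔ ∃ p ∈ L, y ∈ p.2 := by
    intro L y
    have : ∀ s : List ℕ, y ∈ L.foldl (fun s p => s ++ p.2) s ↔ y ∈ s ∨ ∃ p ∈ L, y ∈ p.2 := by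
      induction L with
      | nil => intro s; simp
      | cons a L ih =>
        intro s
        rw [List.foldl_cons, ih]
        simp only [List.mem_append, List.mem_cons, exists_eq_or_imp]
        tauto
    rw [this]
    simp
  refine ⟨fun x l => ∃ L : List (ℕ × List ℕ), W x (L.map Prod.fst) ∧ (∀ p ∈ L, V p.1 p.2) ∧
    l = L.foldl (fun s p => s ++ p.2) [], ?_, ?_, ?_⟩
  · refine RE.ex (p := fun (p : ℕ × List ℕ) (L : List (ℕ × List ℕ)) => W p.1 (L.map Prod.fst) ∧
      (∀ q ∈ L, V q.1 q.2) ∧ p.2 = L.foldl (fun s q => s ++ q.2) []) ?_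
    refine RE.and ?_ (RE.and ?_ (RE.eq (by fun_prop) ?_))
    · exact RE.comp hW1 (f := fun p : (ℕ × List ℕ) × List (ℕ × List ℕ) =>
        (p.1.1, p.2.map Prod.fst)) (by fun_prop)
    · refine RE.all_mem (p := fun (_ : (ℕ × List ℕ) × List (ℕ × List ℕ)) (q : ℕ × List ℕ) =>
        V q.1 q.2) (l := fun p => p.2) ?_ (by fun_prop)
      exact RE.comp hV1 (f := fun z : ((ℕ × List ℕ) × List (ℕ × List ℕ)) × (ℕ × List ℕ) => z.2)
        (by fun_prop)
    · refine RE.list_foldl (f := fun p : (ℕ × List ℕ) × List (ℕ × List ℕ) => p.2)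
        (g := fun _ => ([] : List ℕ)) (h := fun _ y => y.1 ++ y.2.2) (by fun_prop) (by fun_prop) ?_
      show Computable fun z : ((ℕ × List ℕ) × List (ℕ × List ℕ)) × (List ℕ × (ℕ × List ℕ)) =>
        z.2.1 ++ z.2.2.2
      fun_prop
  · rintro x l l' ⟨L, h1, h2, rfl⟩ ⟨L', h1', h2', rfl⟩
    rw [huniq L L' (hW2 x _ _ h1 h1') h2 h2']
  · intro x
    rw [hW3]
    constructor
    · rintro ⟨l, hl, hB⟩
      have h3 : ∀ y, ∃ m : List ℕ, y ∈ l → V y m ∧ ∀ z ∈ m, z ∈ C := by
        intro y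
        by_cases hy : y ∈ l
        · obtain ⟨m, hm⟩ := (hV3 y).1 (hB y hy)
          exact ⟨m, fun _ => hm⟩
        · exact ⟨[], fun h => absurd h hy⟩
      choose m hm using h3
      refine ⟨_, ⟨l.map fun y => (y, m y), ?_, ?_, rfl⟩, ?_⟩
      · rw [List.map_map]
        have : (Prod.fst ∘ fun y => (y, m y)) = id := rfl
        rw [this, List.map_id]
        exact hl
      · intro p hp
        obtain ⟨y, hy, rfl⟩ := List.mem_map.1 hp
        exact (hm y hy).1
      · intro z hz
        rw [hjoin] at hz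
        obtain ⟨p, hp, hz⟩ := hz
        obtain ⟨y, hy, rfl⟩ := List.mem_map.1 hp
        exact (hm y hy).2 z hz
    · rintro ⟨_, ⟨L, h1, h2, rfl⟩, hC⟩
      refine ⟨_, h1, fun y hy => ?_⟩
      obtain ⟨p, hp, rfl⟩ := List.mem_map.1 hy
      exact (hV3 _).2 ⟨p.2, h2 p hp, fun z hz => hC z ((hjoin L z).2 ⟨p, hp, hz⟩)⟩

theorem spc_ered : IsERed (sOps ∩ pcOps) :=
  ⟨fun _ h => h.1.1, spc_refl, spc_trans⟩

theorem pc_ered : IsERed pcOps := ⟨fun _ h => h.1, fun A => spc_sub (spc_refl A), pc_trans⟩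

theorem spc_of_re {W : Set ℕ} (hW : REPred fun x => x ∈ W) (B : Set ℕ) :
    Red (sOps ∩ pcOps) W B := by
  rw [spc_iff]
  refine ⟨fun x o => x ∈ W ∧ o = none, ?_, ?_, ?_⟩
  · exact RE.and (RE.comp hW (f := fun p : ℕ × Option ℕ => p.1) (by fun_prop))
      (RE.eq (by fun_prop) (by fun_prop))
  · rintro x o o' ⟨-, rfl⟩ ⟨-, rfl⟩; rfl
  · intro x; simp

theorem re_empty : REPred fun x : ℕ => x ∈ (∅ : Set ℕ) :=
  (RE.const (α := ℕ) False).of_eq fun a => by simp

theorem spc_proper : IsProper (sOps ∩ pcOps) := fun W hW => ⟨spc_of_re hW ∅, spc_of_re re_empty W⟩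

theorem pc_proper : IsProper pcOps := fun W hW =>
  ⟨spc_sub (spc_of_re hW ∅), spc_sub (spc_of_re re_empty W)⟩

/-! ### Semirecursive sets -/

/-- Merge two numbers with a piece of information of the form `none` (known to be in the set), or
`some i` (in the set iff `i ∈ B`), keeping the weaker one. -/
def mrg (f : ℕ → ℕ → ℕ) (p q : ℕ × Option ℕ) : ℕ × Option ℕ :=
  if p.2 = none then q else if q.2 = none then p else
    if f (p.2.getD 0) (q.2.getD 0) = p.2.getD 0 then q else p

theorem mrg_comp {f : ℕ → ℕ → ℕ} (hf : Computable₂ f) :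
    Computable fun z : (ℕ × Option ℕ) × (ℕ × Option ℕ) => mrg f z.1 z.2 := by
  unfold mrg
  have h1 : Computable fun z : (ℕ × Option ℕ) × (ℕ × Option ℕ) => z.1.2.getD 0 :=
    Primrec.option_getD.to_comp.comp (by fun_prop) (by fun_prop)
  have h2 : Computable fun z : (ℕ × Option ℕ) × (ℕ × Option ℕ) => z.2.2.getD 0 :=
    Primrec.option_getD.to_comp.comp (by fun_prop) (by fun_prop)
  refine RE.cite (RE.cp_eq (by fun_prop) (by fun_prop)) (by fun_prop) ?_
  refine RE.cite (RE.cp_eq (by fun_prop) (by fun_prop)) (by fun_prop) ?_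
  exact RE.cite (RE.cp_eq (hf.comp h1 h2) h1) (by fun_prop) (by fun_prop)

/-- the information `o` is correct -/
def Tr (B : Set ℕ) (o : Option ℕ) : Prop := ∀ y ∈ o, y ∈ B

theorem mrg_or (f : ℕ → ℕ → ℕ) (p q : ℕ × Option ℕ) : mrg f p q = p ∨ mrg f p q = q := by
  unfold mrg
  split_ifs <;> simp

theorem mrg_tr {f : ℕ → ℕ → ℕ} {B : Set ℕ} (hf1 : ∀ a b, f a b = a ∨ f a b = b)
    (hf2 : ∀ a b, a ∈ B ∨ b ∈ B → f a b ∈ B) (p q : ℕ × Option ℕ) :
    Tr B (mrg f p q).2 ↔ Tr B p.2 ∧ Tr B q.2 := by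
  obtain ⟨a, o⟩ := p
  obtain ⟨b, o'⟩ := q
  unfold mrg Tr
  rcases o with _ | i
  · simp
  · rcases o' with _ | j
    · simp
    · simp only [reduceCtorEq, if_false, Option.getD_some, Option.mem_def, Option.some.injEq,
        forall_eq']
      split_ifs with h
      · simp only [Option.some.injEq, forall_eq']
        constructor
        · intro hj
          exact ⟨by rw [← h]; exact hf2 i j (Or.inr hj), hj⟩
        · exact fun h => h.2
      · have h' : f i j = j := (hf1 i j).resolve_left h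
        simp only [Option.some.injEq, forall_eq']
        constructor
        · intro hi
          exact ⟨hi, by rw [← h']; exact hf2 i j (Or.inl hi)⟩
        · exact fun h => h.1

/-- Merge a list. -/
def mrgL (f : ℕ → ℕ → ℕ) (L : List (ℕ × Option ℕ)) : ℕ × Option ℕ :=
  L.foldl (fun p q => mrg f p q) (L[0]?.getD (0, none))

theorem mrgL_comp {f : ℕ → ℕ → ℕ} (hf : Computable₂ f) : Computable (mrgL f) := by
  unfold mrgL
  refine RE.list_foldl (f := fun L : List (ℕ × Option ℕ) => L)
    (g := fun L : List (ℕ × Option ℕ) => L[0]?.getD (0, none))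
    (h := fun _ z => mrg f z.1 z.2) Computable.id ?_ ?_
  · exact Primrec.option_getD.to_comp.comp (by fun_prop) (by fun_prop)
  · exact (mrg_comp hf).comp Computable.snd

theorem mrgL_spec {f : ℕ → ℕ → ℕ} {B : Set ℕ} (hf1 : ∀ a b, f a b = a ∨ f a b = b)
    (hf2 : ∀ a b, a ∈ B ∨ b ∈ B → f a b ∈ B) (L : List (ℕ × Option ℕ)) (hL : L ≠ []) :
    mrgL f L ∈ L ∧ (Tr B (mrgL f L).2 ↔ ∀ p ∈ L, Tr B p.2) := by
  have key : ∀ (L : List (ℕ × Option ℕ)) (s : ℕ × Option ℕ),
      (L.foldl (fun p q => mrg f p q) s = s ∨ L.foldl (fun p q => mrg f p q) s ∈ L) ∧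
      (Tr B (L.foldl (fun p q => mrg f p q) s).2 ↔ Tr B s.2 ∧ ∀ p ∈ L, Tr B p.2) := by
    intro L
    induction L with
    | nil => intro s; simp
    | cons a L ih =>
      intro s
      rw [List.foldl_cons]
      obtain ⟨h1, h2⟩ := ih (mrg f s a)
      constructor
      · rcases h1 with h1 | h1
        · rw [h1]
          rcases mrg_or f s a with h | h
          · exact Or.inl h
          · exact Or.inr (by rw [h]; simp)
        · exact Or.inr (by simp [h1])
      · rw [h2, mrg_tr hf1 hf2]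
        simp only [List.mem_cons, forall_eq_or_imp]
        tauto
  rcases L with _ | ⟨a, L⟩
  · exact absurd rfl hL
  · obtain ⟨h1, h2⟩ := key (a :: L) a
    have h3 : mrgL f (a :: L) = (a :: L).foldl (fun p q => mrg f p q) a := rfl
    rw [h3]
    constructor
    · rcases h1 with h1 | h1
      · rw [h1]; simp
      · exact h1
    · rw [h2]
      simp only [List.mem_cons, forall_eq_or_imp]
      tauto

/-- One conjunctive query to `B` can be replaced by a single question. -/
theorem spc_of_pc {A B : Set ℕ} (hB : Semirecursive B) (h : Red pcOps A B) :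
    Red (sOps ∩ pcOps) A B := by
  obtain ⟨f, hf, hf1, hf2⟩ := hB
  rw [pc_iff] at h
  rw [spc_iff]
  obtain ⟨W, hW1, hW2, hW3⟩ := h
  have hsome : Computable fun l : List ℕ => l.map fun i => (i, some i) := by
    refine (RE.list_foldl (f := fun l : List ℕ => l) (g := fun _ => ([] : List (ℕ × Option ℕ)))
      (h := fun _ y => y.1 ++ [(y.2, some y.2)]) (by fun_prop) (by fun_prop) ?_).of_eq ?_
    · show Computable fun z : List ℕ × (List (ℕ × Option ℕ) × ℕ) =>
        z.2.1 ++ [(z.2.2, some z.2.2)]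
      fun_prop
    · intro l
      have : ∀ s : List (ℕ × Option ℕ), l.foldl (fun s b => s ++ [(b, some b)]) s =
          s ++ l.map fun i => (i, some i) := by
        induction l with
        | nil => intro s; simp
        | cons a l ih => intro s; rw [List.foldl_cons, ih]; simp
      rw [this]
      rfl
  refine ⟨fun x o => ∃ l, W x l ∧ o = (if l = [] then none else
    (mrgL f (l.map fun i => (i, some i))).2), ?_, ?_, ?_⟩
  · refine RE.ex (p := fun (p : ℕ × Option ℕ) (l : List ℕ) => W p.1 l ∧ p.2 =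
      (if l = [] then none else (mrgL f (l.map fun i => (i, some i))).2)) ?_
    refine RE.and ?_ (RE.eq (by fun_prop) ?_)
    · exact RE.comp hW1 (f := fun p : (ℕ × Option ℕ) × List ℕ => (p.1.1, p.2)) (by fun_prop)
    · refine RE.cite (RE.cp_eq (by fun_prop) (by fun_prop)) (by fun_prop) ?_
      exact Computable.snd.comp ((mrgL_comp hf).comp (hsome.comp Computable.snd))
  · rintro x o o' ⟨l, h1, rfl⟩ ⟨l', h1', rfl⟩
    rw [hW2 x l l' h1 h1']
  · intro x
    rw [hW3]
    have key : ∀ l : List ℕ, (∀ y ∈ l, y ∈ B) ↔ Tr B (if l = [] then none else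
        (mrgL f (l.map fun i => (i, some i))).2) := by
      intro l
      by_cases hl : l = []
      · simp [hl, Tr]
      · rw [if_neg hl]
        rw [(mrgL_spec hf1 hf2 _ (by simpa using hl)).2]
        simp [Tr]
    constructor
    · rintro ⟨l, hl, h⟩
      exact ⟨_, ⟨l, hl, rfl⟩, (key l).1 h⟩
    · rintro ⟨_, ⟨l, hl, rfl⟩, h⟩
      exact ⟨l, hl, (key l).2 h⟩

/-- The pc-degree of a semirecursive set: the other reduction. -/
theorem spc_of_pc' {A B : Set ℕ} (hB : Semirecursive B) (h1 : Red (sOps ∩ pcOps) A B)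
    (h2 : Red pcOps B A) : Red (sOps ∩ pcOps) B A := by
  obtain ⟨f, hf, hf1, hf2⟩ := hB
  rw [pc_iff] at h2
  rw [spc_iff] at *
  obtain ⟨W, hW1, hW2, hW3⟩ := h2
  obtain ⟨V, hV1, hV2, hV3⟩ := h1
  have hVT : ∀ a o, V a o → (a ∈ A ↔ Tr B o) := by
    intro a o h
    rw [hV3]
    constructor
    · rintro ⟨o', ho', hB⟩
      rw [hV2 a o o' h ho']
      exact hB
    · intro hB; exact ⟨o, h, hB⟩
  have huniq : ∀ L L' : List (ℕ × Option ℕ), L.map Prod.fst = L'.map Prod.fst →
      (∀ p ∈ L, V p.1 p.2) → (∀ p ∈ L', V p.1 p.2) → L = L' := by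
    intro L
    induction L with
    | nil =>
      intro L' h _ _
      rcases L' with _ | ⟨b, L'⟩
      · rfl
      · simp at h
    | cons a L ih =>
      intro L' h h1 h2
      rcases L' with _ | ⟨b, L'⟩
      · simp at h
      · simp only [List.map_cons, List.cons.injEq] at h
        have h3 := h1 a (by simp)
        have h4 := h2 b (by simp)
        rw [← h.1] at h4
        have h5 : a.2 = b.2 := hV2 _ _ _ h3 h4
        have h6 : a = b := Prod.ext h.1 h5
        rw [h6, ih L' h.2 (fun p hp => h1 p (by simp [hp])) (fun p hp => h2 p (by simp [hp]))]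
  refine ⟨fun x o => ∃ L : List (ℕ × Option ℕ), W x (L.map Prod.fst) ∧ (∀ p ∈ L, V p.1 p.2) ∧
    o = (if L = [] then none else some (mrgL f L).1), ?_, ?_, ?_⟩
  · refine RE.ex (p := fun (p : ℕ × Option ℕ) (L : List (ℕ × Option ℕ)) =>
      W p.1 (L.map Prod.fst) ∧ (∀ q ∈ L, V q.1 q.2) ∧
      p.2 = (if L = [] then none else some (mrgL f L).1)) ?_
    refine RE.and ?_ (RE.and ?_ (RE.eq (by fun_prop) ?_))
    · exact RE.comp hW1 (f := fun p : (ℕ × Option ℕ) × List (ℕ × Option ℕ) =>
        (p.1.1, p.2.map Prod.fst)) (by fun_prop)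
    · refine RE.all_mem (p := fun (_ : (ℕ × Option ℕ) × List (ℕ × Option ℕ))
        (q : ℕ × Option ℕ) => V q.1 q.2) (l := fun p => p.2) ?_ (by fun_prop)
      exact RE.comp hV1 (f := fun z : ((ℕ × Option ℕ) × List (ℕ × Option ℕ)) × (ℕ × Option ℕ) =>
        z.2) (by fun_prop)
    · refine RE.cite (RE.cp_eq (by fun_prop) (by fun_prop)) (by fun_prop) ?_
      exact Computable.option_some.comp (Computable.fst.comp
        ((mrgL_comp hf).comp Computable.snd))
  · rintro x o o' ⟨L, h1, h2, rfl⟩ ⟨L', h1', h2', rfl⟩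
    rw [huniq L L' (hW2 x _ _ h1 h1') h2 h2']
  · intro x
    rw [hW3]
    have key : ∀ L : List (ℕ × Option ℕ), (∀ p ∈ L, V p.1 p.2) →
        ((∀ y ∈ L.map Prod.fst, y ∈ A) ↔
          ∀ y ∈ (if L = [] then none else some (mrgL f L).1), y ∈ A) := by
      intro L hL
      by_cases h0 : L = []
      · simp [h0]
      · rw [if_neg h0]
        obtain ⟨h3, h4⟩ := mrgL_spec hf1 hf2 L h0
        have h5 : (∀ y ∈ L.map Prod.fst, y ∈ A) ↔ ∀ p ∈ L, Tr B p.2 := by
          constructor
          · intro h p hp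
            exact (hVT _ _ (hL p hp)).1 (h _ (List.mem_map_of_mem hp))
          · intro h y hy
            obtain ⟨p, hp, rfl⟩ := List.mem_map.1 hy
            exact (hVT _ _ (hL p hp)).2 (h p hp)
        rw [h5, ← h4, ← hVT _ _ (hL _ h3)]
        simp
    constructor
    · rintro ⟨l, hl, h⟩
      have h3 : ∀ y, ∃ o : Option ℕ, y ∈ l → V y o := by
        intro y
        by_cases hy : y ∈ l
        · obtain ⟨m, hm, -⟩ := (hV3 y).1 (h y hy)
          exact ⟨m, fun _ => hm⟩
        · exact ⟨none, fun h => absurd h hy⟩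
      choose m hm using h3
      have h4 : (l.map fun y => (y, m y)).map Prod.fst = l := by
        rw [List.map_map]
        have : (Prod.fst ∘ fun y => (y, m y)) = id := rfl
        rw [this, List.map_id]
      have h5 : ∀ p ∈ (l.map fun y => (y, m y)), V p.1 p.2 := by
        intro p hp
        obtain ⟨y, hy, rfl⟩ := List.mem_map.1 hp
        exact hm y hy
      refine ⟨_, ⟨l.map fun y => (y, m y), by rw [h4]; exact hl, h5, rfl⟩, ?_⟩
      exact (key _ h5).1 (by rw [h4]; exact h)
    · rintro ⟨_, ⟨L, h1, h2, rfl⟩, h⟩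
      exact ⟨_, h1, (key L h2).2 h⟩

/-- **The pc-degree of a semirecursive set is a single `(s ∩ pc)`-degree.** -/
theorem contiguous_of_semirecursive {B : Set ℕ} (hB : Semirecursive B)
    (hre : ¬ REPred fun x => x ∈ B) : IsContiguous (sOps ∩ pcOps) pcOps B := by
  constructor
  · intro h
    apply hre
    have h1 := h.1
    rw [pc_iff] at h1
    obtain ⟨W, hW1, -, hW3⟩ := h1
    have h2 : REPred fun x : ℕ => W x [] :=
      RE.comp hW1 (f := fun x : ℕ => (x, ([] : List ℕ))) (by fun_prop)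
    refine h2.of_eq fun x => ?_
    rw [hW3]
    constructor
    · intro h; exact ⟨[], h, by simp⟩
    · rintro ⟨l, hl, h⟩
      rcases l with _ | ⟨a, l⟩
      · exact hl
      · exact absurd (h a (by simp)) (by simp)
  · have key : ∀ A, Eqv pcOps A B → Eqv (sOps ∩ pcOps) A B := by
      intro A hA
      have h1 := spc_of_pc hB hA.1
      exact ⟨h1, spc_of_pc' hB h1 hA.2⟩
    intro A C hA hC
    have h1 := key A hA
    have h2 := key C hC
    exact ⟨spc_trans _ _ _ h1.1 h2.2, spc_trans _ _ _ h2.1 h1.2⟩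

/-! ### A semirecursive set which is not c.e. -/

/-- The left cut of the real number `r` in the positive rationals. -/
def cut (r : ℝ) : Set ℕ := {n | (n.unpair.1 : ℝ) / (n.unpair.2 + 1) < r}

theorem cut_semirecursive (r : ℝ) : Semirecursive (cut r) := by
  refine ⟨fun a b => if a.unpair.1 * (b.unpair.2 + 1) ≤ b.unpair.1 * (a.unpair.2 + 1) then a else b,
    ?_, ?_, ?_⟩
  · refine RE.cite (α := ℕ × ℕ) (RE.cp_le ?_ ?_) ?_ ?_ <;> fun_prop
  · intro a b
    dsimp only
    split_ifs <;> simp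
  · intro a b h
    have key : ∀ a b : ℕ, a.unpair.1 * (b.unpair.2 + 1) ≤ b.unpair.1 * (a.unpair.2 + 1) →
        (a.unpair.1 : ℝ) / (a.unpair.2 + 1) ≤ (b.unpair.1 : ℝ) / (b.unpair.2 + 1) := by
      intro a b h
      rw [div_le_div_iff₀ (by positivity) (by positivity)]
      exact_mod_cast h
    dsimp only
    split_ifs with h1
    · have h2 := key a b h1
      rcases h with h | h
      · exact h
      · exact lt_of_le_of_lt h2 h
    · have h2 := key b a (by push Not at h1; exact h1.le)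
      rcases h with h | h
      · exact lt_of_le_of_lt h2 h
      · exact h

theorem cut_injOn : Set.InjOn cut (Set.Ioi 0) := by
  have key : ∀ r s : ℝ, 0 < r → r < s → cut r ≠ cut s := by
    intro r s hr hrs h
    obtain ⟨q, hq1, hq2⟩ := exists_rat_btwn hrs
    have hq0 : (0 : ℚ) < q := by
      have : (0 : ℝ) < q := hr.trans hq1
      exact_mod_cast this
    have hnum : ((q.num.toNat : ℕ) : ℝ) = (q.num : ℝ) := by
      have h1 : (0 : ℤ) ≤ q.num := Rat.num_nonneg.2 hq0.le
      have h2 : ((q.num.toNat : ℕ) : ℤ) = q.num := Int.toNat_of_nonneg h1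
      exact_mod_cast h2
    have hden : (((q.den - 1 : ℕ) : ℝ) + 1) = (q.den : ℝ) := by
      have h1 : 1 ≤ q.den := q.den_pos
      have h2 : (q.den - 1) + 1 = q.den := Nat.sub_add_cancel h1
      exact_mod_cast h2
    have hval : ((Nat.pair q.num.toNat (q.den - 1)).unpair.1 : ℝ) /
        ((Nat.pair q.num.toNat (q.den - 1)).unpair.2 + 1) = (q : ℝ) := by
      rw [Nat.unpair_pair, hnum, hden]
      exact (Rat.cast_def q).symm
    have h1 : Nat.pair q.num.toNat (q.den - 1) ∈ cut s := by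
      show _ < s
      rw [hval]; exact hq2
    rw [← h] at h1
    have h2 : ((Nat.pair q.num.toNat (q.den - 1)).unpair.1 : ℝ) /
        ((Nat.pair q.num.toNat (q.den - 1)).unpair.2 + 1) < r := h1
    rw [hval] at h2
    exact absurd h2 (not_lt.2 hq1.le)
  intro r hr s hs h
  rcases lt_trichotomy r s with h1 | h1 | h1
  · exact absurd h (key r s hr h1)
  · exact h1
  · exact absurd h.symm (key s r hs h1)

theorem countable_re : {S : Set ℕ | REPred fun x => x ∈ S}.Countable := by
  have h : {S : Set ℕ | REPred fun x => x ∈ S} ⊆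
      Set.range fun e : ℕ => {x : ℕ | ∃ s, RE.wst ℕ e s x = true} := by
    intro S hS
    obtain ⟨e, he⟩ := RE.wst_univ (p := fun x => x ∈ S) hS
    exact ⟨e, by ext x; exact (he x).symm⟩
  exact (Set.countable_range _).mono h

theorem exists_semirecursive : ∃ B : Set ℕ, Semirecursive B ∧ ¬ REPred fun x => x ∈ B := by
  by_contra hcon
  push Not at hcon
  have h1 : Set.MapsTo cut (Set.Ioi 0) {S : Set ℕ | REPred fun x => x ∈ S} :=
    fun r _ => hcon _ (cut_semirecursive r)
  have h2 : (Set.Ioi (0 : ℝ)).Countable :=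
    Set.MapsTo.countable_of_injOn h1 cut_injOn countable_re
  have h3 := Cardinal.mk_Ioi_real 0
  have h4 := (Set.countable_coe_iff.2 h2)
  have h5 : Cardinal.mk (Set.Ioi (0 : ℝ)) ≤ Cardinal.aleph0 := Cardinal.mk_le_aleph0_iff.2 h4
  rw [h3] at h5
  exact absurd h5 (not_le.2 Cardinal.aleph0_lt_continuum)

/-! ### The two reducibilities are different -/

/-- the square of a set -/
def sq (B : Set ℕ) : Set ℕ := {x | x.unpair.1 ∈ B ∧ x.unpair.2 ∈ B}

theorem sq_red (B : Set ℕ) : Red pcOps (sq B) B := by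
  rw [pc_iff]
  refine ⟨fun x l => l = [x.unpair.1, x.unpair.2], RE.eq (by fun_prop) (by fun_prop), ?_, ?_⟩
  · rintro x l l' rfl rfl; rfl
  · intro x; simp [sq]

/-- the set coded by a point of Cantor space -/
def st (b : ℕ → Bool) : Set ℕ := {n | b n = true}

theorem diff : ∃ A B : Set ℕ, Red pcOps A B ∧ ¬ Red (sOps ∩ pcOps) A B := by
  classical
  -- the `e`-th relation
  let W : ℕ → ℕ → Option ℕ → Prop := fun e x o => ∃ s, RE.wst (ℕ × Option ℕ) e s (x, o) = true
  let SV : ℕ → Prop := fun e => ∀ x o o', W e x o → W e x o' → o = o'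
  let F : ℕ → ℕ → (ℕ → Bool) → Prop := fun e x b =>
    (x ∈ sq (st b) ↔ ∃ o, W e x o ∧ ∀ y ∈ o, y ∈ st b)
  let G : ℕ → Set (ℕ → Bool) := fun e => {b | SV e → ∃ x, ¬ F e x b}
  have hclopen : ∀ n : ℕ, IsClopen {b : ℕ → Bool | n ∈ st b} := by
    intro n
    have : {b : ℕ → Bool | n ∈ st b} = (fun b : ℕ → Bool => b n) ⁻¹' {true} := by
      ext b; simp [st]
    rw [this]
    exact (isClopen_discrete _).preimage (continuous_apply n)
  have hopen : ∀ e, IsOpen (G e) := by
    intro e
    by_cases hsv : SV e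
    · have h1 : G e = ⋃ x, {b | F e x b}ᶜ := by
        ext b
        simp [G, hsv]
      rw [h1]
      refine isOpen_iUnion fun x => ?_
      have h2 : IsClopen {b : ℕ → Bool | x ∈ sq (st b)} := (hclopen _).inter (hclopen _)
      have h3 : IsClopen {b : ℕ → Bool | ∃ o, W e x o ∧ ∀ y ∈ o, y ∈ st b} := by
        by_cases hex : ∃ o, W e x o
        · obtain ⟨o, ho⟩ := hex
          have h4 : {b : ℕ → Bool | ∃ o, W e x o ∧ ∀ y ∈ o, y ∈ st b} =
              {b | ∀ y ∈ o, y ∈ st b} := by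
            ext b
            constructor
            · rintro ⟨o', ho', h⟩
              rw [hsv x o o' ho ho']; exact h
            · intro h; exact ⟨o, ho, h⟩
          rw [h4]
          rcases o with _ | i
          · simp only [Option.mem_def, reduceCtorEq, false_imp_iff, implies_true]
            exact isClopen_univ
          · have h5 : {b : ℕ → Bool | ∀ y ∈ some i, y ∈ st b} = {b | i ∈ st b} := by
              ext b; simp
            rw [h5]
            exact hclopen i
        · have h4 : {b : ℕ → Bool | ∃ o, W e x o ∧ ∀ y ∈ o, y ∈ st b} = ∅ := by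
            ext b
            simp only [Set.mem_ofPred_eq, Set.mem_empty_iff_false, iff_false]
            rintro ⟨o, ho, -⟩
            exact hex ⟨o, ho⟩
          rw [h4]
          exact isClopen_empty
      have h4 : {b | F e x b} = ({b : ℕ → Bool | x ∈ sq (st b)} ∩
          {b : ℕ → Bool | ∃ o, W e x o ∧ ∀ y ∈ o, y ∈ st b}) ∪
          ({b : ℕ → Bool | x ∈ sq (st b)}ᶜ ∩
          {b : ℕ → Bool | ∃ o, W e x o ∧ ∀ y ∈ o, y ∈ st b}ᶜ) := by
        ext b
        simp only [F, Set.mem_ofPred_eq, Set.mem_union, Set.mem_inter_iff, Set.mem_compl_iff]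
        exact iff_iff_and_or_not_and_not
      rw [h4]
      exact (((h2.inter h3).union (h2.compl.inter h3.compl)).compl).isOpen
    · have h1 : G e = Set.univ := by
        ext b; simp [G, hsv]
      rw [h1]
      exact isOpen_univ
  have hdense : ∀ e, Dense (G e) := by
    intro e
    rw [dense_iff_inter_open]
    rintro U hU ⟨b0, hb0⟩
    obtain ⟨I, u, hu1, hu2⟩ := isOpen_pi_iff.1 hU b0 hb0
    -- two new elements
    let a := I.sup id + 1
    let c := I.sup id + 2
    have hI : ∀ i ∈ I, i ≤ I.sup id := fun i hi => Finset.le_sup (f := id) hi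
    have ha : ∀ i ∈ I, i ≠ a := fun i hi => by have := hI i hi; omega
    have hc : ∀ i ∈ I, i ≠ c := fun i hi => by have := hI i hi; omega
    let v : Bool → Bool → ℕ → Bool := fun p q i => if i = a then p else if i = c then q else b0 i
    have hv : ∀ p q, v p q ∈ U := by
      intro p q
      apply hu2
      intro i hi
      have h1 : v p q i = b0 i := by
        simp only [v]
        rw [if_neg (ha i hi), if_neg (hc i hi)]
      rw [h1]
      exact (hu1 i hi).2
    have hac : c ≠ a := by omega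
    have hva : ∀ p q, v p q a = p := fun p q => by simp [v]
    have hvc : ∀ p q, v p q c = q := fun p q => by simp [v, hac]
    have hvo : ∀ p q i, i ≠ a → i ≠ c → v p q i = b0 i := fun p q i h1 h2 => by simp [v, h1, h2]
    have hsq : ∀ p q, (Nat.pair a c ∈ sq (st (v p q)) ↔ p = true ∧ q = true) := by
      intro p q
      simp [sq, st, hva, hvc]
    by_cases hsv : SV e
    · by_cases hex : ∃ o, W e (Nat.pair a c) o
      · obtain ⟨o, ho⟩ := hex
        have hkey : ∀ b, (∃ o, W e (Nat.pair a c) o ∧ ∀ y ∈ o, y ∈ st b) ↔ ∀ y ∈ o, y ∈ st b := by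
          intro b
          constructor
          · rintro ⟨o', ho', h⟩
            rw [hsv _ o o' ho ho']; exact h
          · intro h; exact ⟨o, ho, h⟩
        rcases o with _ | i
        · refine ⟨v false false, hv _ _, fun _ => ⟨Nat.pair a c, ?_⟩⟩
          simp only [F]
          rw [hsq, hkey]
          simp
        · by_cases hia : i = a
          · refine ⟨v true false, hv _ _, fun _ => ⟨Nat.pair a c, ?_⟩⟩
            simp only [F]
            rw [hsq, hkey]
            simp [st, hia, hva]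
          · by_cases hic : i = c
            · refine ⟨v false true, hv _ _, fun _ => ⟨Nat.pair a c, ?_⟩⟩
              simp only [F]
              rw [hsq, hkey]
              simp [st, hic, hvc]
            · cases hb : b0 i
              · refine ⟨v true true, hv _ _, fun _ => ⟨Nat.pair a c, ?_⟩⟩
                simp only [F]
                rw [hsq, hkey]
                simp [st, hvo _ _ i hia hic, hb]
              · refine ⟨v false false, hv _ _, fun _ => ⟨Nat.pair a c, ?_⟩⟩
                simp only [F]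
                rw [hsq, hkey]
                simp [st, hvo _ _ i hia hic, hb]
      · refine ⟨v true true, hv _ _, fun _ => ⟨Nat.pair a c, ?_⟩⟩
        simp only [F]
        rw [hsq]
        intro h
        obtain ⟨o, ho, -⟩ := h.1 ⟨rfl, rfl⟩
        exact hex ⟨o, ho⟩
    · exact ⟨b0, hb0, fun h => absurd h hsv⟩
  obtain ⟨b, hb⟩ := (dense_iInter_of_isOpen hopen hdense).nonempty
  refine ⟨sq (st b), st b, sq_red _, ?_⟩
  rw [spc_iff]
  rintro ⟨V, hV1, hV2, hV3⟩
  obtain ⟨e, he⟩ := RE.wst_univ (p := fun p : ℕ × Option ℕ => V p.1 p.2) hV1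
  have hWV : ∀ x o, W e x o ↔ V x o := fun x o => (he (x, o)).symm
  have hbe : b ∈ G e := Set.mem_iInter.1 hb e
  obtain ⟨x, hx⟩ := hbe (fun x o o' h h' => hV2 x o o' ((hWV _ _).1 h) ((hWV _ _).1 h'))
  apply hx
  show x ∈ sq (st b) ↔ _
  rw [hV3]
  simp only [hWV]

/-- **Answer to Q1 (positive).** The classes of the operators which are both s-operators and
pc-operators, and of the pc-operators, give two distinct proper e-reducibilities
`≤_y ⊆ ≤_z`, and some `z`-degree is `y`-contiguous; in fact the pc-degree of every semirecursive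
set which is not c.e. is contiguous, and there are such sets. -/
theorem result :
    IsERed (sOps ∩ pcOps) ∧ IsERed pcOps ∧ IsProper (sOps ∩ pcOps) ∧ IsProper pcOps ∧
    (∀ A B : Set ℕ, Red (sOps ∩ pcOps) A B → Red pcOps A B) ∧
    (∃ A B : Set ℕ, Red pcOps A B ∧ ¬ Red (sOps ∩ pcOps) A B) ∧
    (∀ B : Set ℕ, Semirecursive B → ¬ REPred (fun x => x ∈ B) →
      IsContiguous (sOps ∩ pcOps) pcOps B) ∧
    ∃ B : Set ℕ, Semirecursive B ∧ ¬ REPred fun x => x ∈ B :=
  ⟨spc_ered, pc_ered, spc_proper, pc_proper, fun _ _ => spc_sub, diff,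
    fun _ => contiguous_of_semirecursive, exists_semirecursive⟩

end Pool.Agent.Results.MP_9a6b8c_lc.Contiguous
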